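import Pool.Agent.Lib.MP_75b31c_lc.N40.Iface

set_option autoImplicit false

/-!
# Module BOR (helper40)
-/

namespace Pool.Agent.Lib.MP_75b31c_lc.N40.H40

open MeasureTheory Filter
open Pool.Agent.Lib.MP_75b31c_lc.N40
open Pool.Agent.Lib.MP_75b31c_lc.H40 (chi coin coinPi shift pre)

theorem measurable_flip : Measurable fun q : (ℕ → Bool) × XX => flip0 q.1 0 q.2 := by
  refine measurable_pi_lambda _ fun g => ?_
  unfold flip0
  have h1 : Measurable fun q : (ℕ → Bool) × XX => q.2 g :=
    (measurable_pi_apply g).comp measurable_snd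
  have h2 : Measurable fun q : (ℕ → Bool) × XX =>
      ext0 q.1 (Multiplicative.toAdd g.2 + (0 : ℕ)) := by
    unfold ext0
    split_ifs
    · exact (measurable_pi_apply _).comp measurable_fst
    · exact measurable_const
  exact (measurable_of_countable (fun b : Bool × Bool => xor b.1 b.2)).comp (h1.prodMk h2)

theorem measurable_shift2 (γ : Gam) : Measurable fun q : (ℕ → Bool) × XX => shift γ q.2 :=
  (H74.measurable_shift γ).comp measurable_snd

theorem act_none (p : ℕ → Bool) (x : XX) : act p (FreeGroup.of none) x = flip0 p 0 x := by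
  unfold act
  rw [FreeGroup.lift_apply_of]
  rfl

theorem act_some (p : ℕ → Bool) (γ : Gam) (x : XX) :
    act p (FreeGroup.of (some γ)) x = shift γ x := by
  unfold act
  rw [FreeGroup.lift_apply_of]
  rfl

theorem act_none_inv (p : ℕ → Bool) (x : XX) : act p (FreeGroup.of none)⁻¹ x = flip0 p 0 x := by
  rw [map_inv, Equiv.Perm.inv_eq_iff_eq, act_none]
  exact ((flipP p).left_inv x).symm

theorem act_some_inv (p : ℕ → Bool) (γ : Gam) (x : XX) :
    act p (FreeGroup.of (some γ))⁻¹ x = shift γ⁻¹ x := by
  rw [map_inv, Equiv.Perm.inv_eq_iff_eq, act_some]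
  exact ((shiftP γ).right_inv x).symm

theorem measurable_act (g : GG) : Measurable fun q : (ℕ → Bool) × XX => act q.1 g q.2 := by
  induction g using FreeGroup.induction_on with
  | C1 => 
    simp only [map_one, Equiv.Perm.coe_one, id_eq]
    exact measurable_snd
  | of o =>
    cases o with
    | none =>
      simp only [act_none]
      exact measurable_flip
    | some γ =>
      simp only [act_some]
      exact measurable_shift2 γ
  | inv_of o h =>
    cases o with
    | none =>
      simp only [act_none_inv]
      exact measurable_flip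
    | some γ =>
      simp only [act_some_inv]
      exact measurable_shift2 γ⁻¹
  | mul x y hx hy =>
    have e : (fun q : (ℕ → Bool) × XX => act q.1 (x * y) q.2) =
        (fun q : (ℕ → Bool) × XX => act q.1 x q.2) ∘
          fun q : (ℕ → Bool) × XX => (q.1, act q.1 y q.2) := by
      funext q
      simp
    rw [e]
    exact hx.comp (measurable_fst.prodMk hy)

theorem ff_equivalence : Equivalence FF where
  refl y := ⟨rfl, rfl, 1, by simp⟩
  symm := by
    rintro ⟨p, x, i⟩ ⟨p', x', i'⟩ ⟨h1, h2, g, h3⟩
    simp only at h1 h2 h3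
    subst h1 h2
    refine ⟨rfl, rfl, g⁻¹, ?_⟩
    simp only
    rw [map_inv, Equiv.Perm.inv_eq_iff_eq, h3]
  trans := by
    rintro ⟨p, x, i⟩ ⟨p', x', i'⟩ ⟨p'', x'', i''⟩ ⟨h1, h2, g, h3⟩ ⟨h4, h5, g', h6⟩
    simp only at h1 h2 h3 h4 h5 h6
    subst h1 h2 h4 h5
    refine ⟨rfl, rfl, g' * g, ?_⟩
    simp only
    rw [map_mul, Equiv.Perm.mul_apply, h3, h6]

theorem measurable_pair (p : ℕ → Bool) : Measurable fun x : XX => ((p, x) : (ℕ → Bool) × XX) :=
  measurable_const.prodMk measurable_id

theorem measurable_act' (p : ℕ → Bool) (g : GG) : Measurable fun x : XX => act p g x := by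
  have h2 : (fun x : XX => act p g x) = (fun q : (ℕ → Bool) × XX => act q.1 g q.2) ∘
      (fun x : XX => ((p, x) : (ℕ → Bool) × XX)) := by
    funext x
    rw [Function.comp_apply]
  rw [h2]
  exact (measurable_act g).comp (measurable_pair p)

theorem meas1 (g : GG) : Measurable fun p : YY × YY => act p.1.1 g p.1.2.1 := by
  have h : Measurable fun p : YY × YY => ((p.1.1, p.1.2.1) : (ℕ → Bool) × XX) :=
    (measurable_fst.comp measurable_fst).prodMk
        (measurable_fst.comp (measurable_snd.comp measurable_fst))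
  have e : (fun p : YY × YY => act p.1.1 g p.1.2.1) =
      (fun q : (ℕ → Bool) × XX => act q.1 g q.2) ∘
    (fun p : YY × YY => ((p.1.1, p.1.2.1) : (ℕ → Bool) × XX)) := by
    funext p
    rw [Function.comp_apply]
  rw [e]
  exact (measurable_act g).comp h

theorem meas2 : Measurable fun p : YY × YY => p.2.2.1 := by
  have h1 : Measurable fun p : YY × YY => p.2 := measurable_snd
  have h2 : Measurable fun p : YY => p.2 := measurable_snd
  have h3 : Measurable fun p : XX × Bool => p.1 := measurable_fst
  exact h3.comp (h2.comp h1)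

theorem bor : BOR_S := by
  refine ⟨ff_equivalence, ?_, ?_, ?_⟩
  · have e : {p : YY × YY | FF p.1 p.2} =
        ({p : YY × YY | p.1.1 = p.2.1} ∩ {p | p.1.2.2 = p.2.2.2}) ∩
          ⋃ g : GG, {p : YY × YY | act p.1.1 g p.1.2.1 = p.2.2.1} := by
      ext p
      simp only [FF, Set.mem_ofPred_eq, Set.mem_inter_iff, Set.mem_iUnion]
      tauto
    rw [e]
    refine ((measurableSet_eq_fun ?_ ?_).inter (measurableSet_eq_fun ?_ ?_)).inter
      (MeasurableSet.iUnion fun g => measurableSet_eq_fun (meas1 g) meas2)
    · exact measurable_fst.comp measurable_fst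
    · exact measurable_fst.comp measurable_snd
    · exact measurable_snd.comp (measurable_snd.comp measurable_fst)
    · exact measurable_snd.comp (measurable_snd.comp measurable_snd)
  · intro y
    refine (Set.countable_range fun g : GG => ((y.1, act y.1 g y.2.1, y.2.2) : YY)).mono ?_
    rintro ⟨p, x, i⟩ ⟨h1, h2, g, h3⟩
    simp only at h1 h2 h3
    exact ⟨g, Prod.ext h1 (Prod.ext h3 h2)⟩
  · exact measurable_act'

end Pool.Agent.Lib.MP_75b31c_lc.N40.H40
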