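import Pool.Agent.Lib.MP_75b31c_lc.N40.H40.Dec

set_option autoImplicit false

/-!
# The frozen statement from MAIN and BOR (helper40)
-/

namespace Pool.Agent.Lib.MP_75b31c_lc.N40.H40

open MeasureTheory Filter
open Pool.Agent.Lib.MP_75b31c_lc.N40

theorem frozen_of_main (h : MAIN_S) (hBOR : BOR_S) :
    ¬ (∀ (Y : Type) [MeasurableSpace Y] [StandardBorelSpace Y] (F : Y → Y → Prop),
      Equivalence F →
      MeasurableSet {p : Y × Y | F p.1 p.2} →
      (∀ y : Y, Set.Countable {z : Y | F y z}) →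
      ∃ f : Y → (ℕ → Bool), Measurable f ∧
        ∀ y y' : Y, F y y' ↔
          (TuringReducible (fun n => Part.some ((f y) n).toNat)
              (fun n => Part.some ((f y') n).toNat) ∧
            TuringReducible (fun n => Part.some ((f y') n).toNat)
              (fun n => Part.some ((f y) n).toNat))) := by
  intro hall
  obtain ⟨f, hf, hfe⟩ := hall YY FF hBOR.1 hBOR.2.1 hBOR.2.2.1
  exact h ⟨f, hf, fun y y' => hfe y y'⟩

/-- Everything of Part B from the modules. -/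
theorem all (hBD : D40.BD_S) (hTUR : TUR_S) (hENU : ENU_S) (hMEAS : MEAS_S) (hCMPC : CMPC_S)
    (hMAJ : MAJ_S) (hMAJG : MAJG_S) (hTREE : TREE_S) (hHCOMP : HCOMP_S) (hMARK : MARK_S)
    (hERR : ERR_S) (hGUESS : GUESS_S) (hCORE : CORE_S) (hPAD : PAD_S) (hINJ : INJ_S)
    (hTAB : TAB_S) (hFUN : FUN_S) (hVAR : VAR_S) (hXORM : XORM_S) (hCON : CON_S) (hBOR : BOR_S)
    (hSEP : SEP_S) (hGAM : GAM_S) : MAIN_S :=
  main_of (decc (dec hINJ hPAD hFUN hTAB hENU hMEAS hERR hGUESS hCORE hHCOMP hMAJG hMARK hCMPC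
    hMAJ hTREE hTUR) hVAR hXORM hCON hBOR) hMEAS hSEP hGAM hBD hTUR

end Pool.Agent.Lib.MP_75b31c_lc.N40.H40
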