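import Pool.Agent.Lib.MP_75b31c_lc.D40.H59.ClStr
import Pool.Agent.Lib.MP_75b31c_lc.D40.H62.CLASM
import Pool.Agent.Lib.MP_75b31c_lc.D40.H62.COMP
import Pool.Agent.Lib.MP_75b31c_lc.D40.H68.Reach
import Pool.Agent.Lib.MP_75b31c_lc.D40.H68.Sig
import Pool.Agent.Lib.MP_75b31c_lc.D40.H82.Puc
import Pool.Agent.Lib.MP_75b31c_lc.D40.H82.Trans
import Pool.Agent.Lib.MP_75b31c_lc.D40.H86.Clli2
import Pool.Agent.Lib.MP_75b31c_lc.D40.H86.Cllii2
import Pool.Agent.Lib.MP_75b31c_lc.D40.H86.Limc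
import Pool.Agent.Lib.MP_75b31c_lc.D40.H86.Thr
import Pool.Agent.Lib.MP_75b31c_lc.D40.H89.CLLOC
import Pool.Agent.Lib.MP_75b31c_lc.D40.H89.PUN
import Pool.Agent.Lib.MP_75b31c_lc.D40.H90.Clli1
import Pool.Agent.Lib.MP_75b31c_lc.D40.H90.Cllii1
import Pool.Agent.Lib.MP_75b31c_lc.N40.H09.Maj
import Pool.Agent.Lib.MP_75b31c_lc.N40.H12.Cmpc
import Pool.Agent.Lib.MP_75b31c_lc.N40.H12.Conc
import Pool.Agent.Lib.MP_75b31c_lc.N40.H12.Mark
import Pool.Agent.Lib.MP_75b31c_lc.N40.H21.Tur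
import Pool.Agent.Lib.MP_75b31c_lc.N40.H23.Core
import Pool.Agent.Lib.MP_75b31c_lc.N40.H25.Guess
import Pool.Agent.Lib.MP_75b31c_lc.N40.H25.Meas
import Pool.Agent.Lib.MP_75b31c_lc.N40.H25.Sep
import Pool.Agent.Lib.MP_75b31c_lc.N40.H30.Gam
import Pool.Agent.Lib.MP_75b31c_lc.N40.H40.Bor
import Pool.Agent.Lib.MP_75b31c_lc.N40.H40.Fin
import Pool.Agent.Lib.MP_75b31c_lc.N40.H78.Fun
import Pool.Agent.Lib.MP_75b31c_lc.N40.H86.Enu
import Pool.Agent.Lib.MP_75b31c_lc.N40.H86.Err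
import Pool.Agent.Lib.MP_75b31c_lc.N40.H86.Hcomp
import Pool.Agent.Lib.MP_75b31c_lc.N40.H86.Tree
import Pool.Agent.Lib.MP_75b31c_lc.N40.H89.Inj
import Pool.Agent.Lib.MP_75b31c_lc.N40.H89.Tab
import Pool.Agent.Lib.MP_75b31c_lc.N40.H92.Var

set_option autoImplicit false

/-!
# Borel determinacy and the non-universality of Turing equivalence (assembly, helper40)
-/

namespace Pool.Agent.Lib.MP_75b31c_lc.N40.H40

open Pool.Agent.Lib.MP_75b31c_lc
open Pool.Agent.Lib.MP_75b31c_lc.N40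

theorem lifts (T : D40.GT) (k : ℕ) (C : Set T.Q) (j : Bool) : D40.Lifts T k C j := by
  intro σ hσ x hx hc
  cases j with
  | false =>
    by_cases h : ∀ n, x n ∈ D40.TX T C
    · exact D40.H90.clli1 D40.H68.reach T k C σ hσ x hx hc h
    · push Not at h
      exact D40.H86.clli2 D40.H68.reach T k C σ hσ x hx hc h
  | true =>
    by_cases h : ∀ n, x n ∉ D40.US T k C σ (x (2 * k + 1))
    · exact D40.H86.cllii2 D40.H68.reach T k C σ hσ x hx hc h
    · push Not at h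
      exact D40.H90.cllii1 D40.H68.reach T k C σ hσ x hx hc h

/-- Closed sets can be unraveled. -/
theorem closed : D40.CLOSED_S :=
  D40.H62.clasm D40.H59.clpay D40.H59.clstr lifts D40.H89.clloc

/-- Borel determinacy for games with moves in `Bool`. -/
theorem borel_determinacy : D40.BD_S :=
  D40.H68.bdf D40.H68.fin D40.H82.trans
    (D40.H68.sig D40.H82.puc (D40.H89.pun D40.H62.comp D40.H86.thr D40.H86.limc closed))

/-- The relation `FF` is not Borel reducible to Turing equivalence. -/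
theorem main : MAIN_S :=
  all borel_determinacy H21.tur H86.enu (H25.meas H86.enu (H12.cmpc H21.tur)) (H12.cmpc H21.tur)
    H09.maj H09.majg H86.tree H86.hcomp H12.mark H86.err H25.guess H23.core (H12.padThm H21.tur)
    H89.inj H89.tab H78.fun_mod H92.var H12.xorm H12.con bor H25.sep H30.gam

end Pool.Agent.Lib.MP_75b31c_lc.N40.H40
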