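import Pool.Agent.Lib.MP_75b31c_lc.N40.Iface

set_option autoImplicit false

/-!
# Modules DEC, DECC (helper40)
-/

namespace Pool.Agent.Lib.MP_75b31c_lc.N40.H40

open MeasureTheory Filter
open Pool.Agent.Lib.MP_75b31c_lc.N40
open Pool.Agent.Lib.MP_75b31c_lc.H40 (chi coin coinPi shift pre)

theorem tle_refl (z : ℕ → Bool) : TLe z z := TuringReducible.refl _

theorem tle_trans {x y z : ℕ → Bool} (h : TLe x y) (h' : TLe y z) : TLe x z :=
  TuringReducible.trans h h'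

theorem qq_pos : 0 < qq := by unfold qq; positivity

theorem cnt_add (N : ℕ) (P Q : ℕ → Prop) (h : ∀ j, ¬ P j → Q j) : N ≤ cnt N P + cnt N Q := by
  classical
  unfold cnt
  have h4 := Finset.card_filter_add_card_filter_not (s := Finset.range N) (p := P)
  rw [Finset.card_range] at h4
  have h5 : ((Finset.range N).filter fun j => ¬ P j).card ≤ ((Finset.range N).filter Q).card :=
    Finset.card_le_card fun j hj => by
      rw [Finset.mem_filter] at hj ⊢
      exact ⟨hj.1, h j hj.2⟩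
  omega

theorem dec (hINJ : INJ_S) (hPAD : PAD_S) (hFUN : FUN_S) (hTAB : TAB_S) (hENU : ENU_S)
    (hMEAS : MEAS_S) (hERR : ERR_S) (hGUESS : GUESS_S) (hCORE : CORE_S) (hHCOMP : HCOMP_S)
    (hMAJG : MAJG_S) (hMARK : MARK_S) (hCMPC : CMPC_S) (hMAJ : MAJ_S) (hTREE : TREE_S)
    (hTUR : TUR_S) : DEC_S := by
  intro G _ _ X _ _ _ hact μ _ D bit hbit p hw ht hti ha hai hw0 h hh hred
  obtain ⟨n, hn, K, hK, hKμ, hinj⟩ := hINJ G X hact μ h hh (fun x x' hx => by
    apply (hred x x').1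
    rw [hx]
    exact ⟨tle_refl _, tle_refl _⟩) (qq / 2) (by have := qq_pos; linarith)
  set h' : X → ℕ → Bool := fun x => pad (n x) (h x) with hh'
  have hm' : Measurable h' := hPAD.2.2.comp (hn.prodMk hh)
  have hteq : ∀ x, TEq (h' x) (h x) := fun x => hPAD.1 _ _
  have hinj' : Set.InjOn h' K := by
    intro x hx x' hx' he
    obtain ⟨e1, e2⟩ := hPAD.2.1 _ _ _ _ he
    exact hinj x hx x' hx' e1 e2
  have hle : ∀ s : X → X, (∃ g : G, ∀ x, s x = g • x) → ∀ x, TLe (h' (s x)) (h' x) := by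
    rintro s ⟨g, hg⟩ x
    have h1 := (hred x (g • x)).2 ⟨g, rfl⟩
    rw [hg x]
    exact tle_trans (hteq _).1 (tle_trans h1.2 (hteq x).2)
  obtain ⟨hF, hU⟩ := hFUN hTAB hENU hMEAS X μ h' hm' K hK hinj' (qq / 2)
    (by have := qq_pos; linarith) hKμ
  rw [show 2 * (qq / 2) = qq by ring] at hF hU
  choose Ft hFt1 hFt2 using fun j => hF (D.t j) (D.mt j).measurable (hle _ (ht j))
  choose Fti hFti1 hFti2 using fun j => hF (D.ti j) (D.mti j).measurable (hle _ (hti j))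
  obtain ⟨Fa, hFa1, hFa2⟩ := hF D.a D.ma.measurable (hle _ ha)
  obtain ⟨Fai, hFai1, hFai2⟩ := hF D.ai D.mai.measurable (hle _ hai)
  obtain ⟨FT, hFT1, hFT2⟩ := hF (D.w 0) (D.mw 0).measurable (hle _ hw0)
  obtain ⟨k, U, hUc, hUe⟩ := hU bit hbit
  set H := HH Ft Fti Fa Fai FT with hH
  have hHC := hHCOMP hTREE hCMPC hMAJ hMAJG Ft Fti Fa Fai FT (fun j _ => hFt1 j)
    (fun j _ => hFti1 j) hFa1 hFai1 hFT1
  have herr := hERR hMARK hMEAS hCMPC hMAJ hHCOMP hTREE hMAJG X μ D h' hm' Ft Fti Fa Fai FT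
    (fun j _ => hFt1 j) (fun j _ => hFti1 j) hFa1 hFai1 hFT1 (fun j _ => hFt2 j)
    (fun j _ => hFti2 j) hFa2 hFai2 hFT2
  have hgu := hGUESS hMEAS hCMPC X μ D h' hm' bit hbit p hw H hHC.1 herr k U hUe
  obtain ⟨x, hx⟩ := hCORE hMARK X μ D (fun j => {x | ¬ Cmp (Ft j) (h' x) (h' (D.t j x))})
    (fun j => by
      have : Measurable fun x => (h' x, h' (D.t j x)) :=
        hm'.prodMk (hm'.comp (D.mt j).measurable)
      exact (this (hMEAS.1 (Ft j))).compl)
    (fun j _ => hFt2 j)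
    (fun i n => {x | ¬ Gd (fun ρ => amp Ft (guess k U H) i ρ n) (h' x) (p n)})
    (fun i n => (hm' (hMEAS.2.1 (fun ρ => amp Ft (guess k U H) i ρ n) (p n))).compl) hgu (by
      intro i n x hx
      rw [Set.mem_ofPred_eq] at hx ⊢
      by_contra hcon
      apply hx
      have h1 : NN < 2 * cnt NN (fun j => Gd (fun ρ => amp Ft (guess k U H) i (Ft j ρ) n)
          (h' x) (p n)) := by
        have h2 : ∀ j, ¬ (¬ Cmp (Ft j) (h' x) (h' (D.t j x)) ∨
            ¬ Gd (fun ρ => amp Ft (guess k U H) i ρ n) (h' (D.t j x)) (p n)) →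
            Gd (fun ρ => amp Ft (guess k U H) i (Ft j ρ) n) (h' x) (p n) := by
          intro j hj
          push Not at hj
          exact hCMPC.2.2.1 _ _ _ _ _ (hFt1 j) hj.1 hj.2
        have h3 := cnt_add NN _ _ h2
        have h4 : ¬ NN ≤ 2 * cnt NN (fun j => ¬ Cmp (Ft j) (h' x) (h' (D.t j x)) ∨
            ¬ Gd (fun ρ => amp Ft (guess k U H) i ρ n) (h' (D.t j x)) (p n)) := hcon
        omega
      exact hMAJG.2 NN _ _ _ h1)
  rw [eventually_atTop] at hx
  obtain ⟨n₀, hn₀⟩ := hx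
  have hfin : TLe p (h' x) := by
    refine hTUR (fun ρ n => amp Ft (guess k U H) n ρ n) (hHC.2.2 k U hUc) (h' x) p n₀ ?_
    intro n hn
    have h1 := hn₀ n hn
    rw [Set.mem_ofPred_eq, not_not] at h1
    exact ⟨h1.1, h1.2.exists⟩
  exact ⟨x, tle_trans hfin (hteq x).1⟩

theorem decc (hDEC : DEC_S) (hVAR : VAR_S) (hXORM : XORM_S) (hCON : CON_S) (hBOR : BOR_S) :
    DECC_S := by
  intro p h hh hred
  letI : MulAction GG XX := MulAction.compHom XX (act p)
  have hsm : ∀ (g : GG) (x : XX), g • x = act p g x := fun g x => rfl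
  obtain ⟨D, hDt, hDti, hDa, hDai, hDw, hbit⟩ := hCON hVAR hXORM p
  have hsh : ∀ γ : Gam, ∃ g : GG, ∀ x : XX, shift γ x = g • x := by
    intro γ
    refine ⟨FreeGroup.of (some γ), fun x => ?_⟩
    rw [hsm]
    unfold act
    rw [FreeGroup.lift_apply_of]
    rfl
  refine hDEC GG XX (fun g => ?_) (coinPi Gam) D bit1 ?_ p hbit ?_ ?_ ?_ ?_ ?_ h hh ?_
  · exact hBOR.2.2.2 p g
  · exact measurable_pi_apply _
  · intro j
    rw [hDt]
    exact hsh _
  · intro j
    rw [hDti]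
    exact hsh _
  · rw [hDa]
    exact hsh _
  · rw [hDai]
    exact hsh _
  · rw [hDw]
    refine ⟨FreeGroup.of none, fun x => ?_⟩
    rw [hsm]
    unfold act
    rw [FreeGroup.lift_apply_of]
    rfl
  · exact hred

end Pool.Agent.Lib.MP_75b31c_lc.N40.H40
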